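import Pool.Agent.H717.PR.Stm

/-!
# Project PR717, job ISO: the graph of the matrix and the graph on the labels (helper686)
-/

set_option autoImplicit false

namespace Pool.Agent.H686.PR

open Pool.Agent.NPC Pool.Agent.H622R2 Pool.Agent.V11227.BT Pool.Agent.H717.PR
open Pool.Agent.TH667.PCG (LeafTree)

/-- relabelling of the leaves -/
def relab {V V' : Type} (e : V' ≃ V) (t : LeafTree V) : LeafTree V' where
  W := t.W
  fin := t.fin
  T := t.T
  isTree := t.isTree
  w := t.w
  w_pos := t.w_pos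
  leaf := t.leaf ∘ e
  leaf_inj := t.leaf_inj.comp e.injective
  leaf_iff := fun x => by
    rw [e.surjective.range_comp]
    exact t.leaf_iff x

theorem isPCG_of_iso {V V' : Type} {G : SimpleGraph V} {G' : SimpleGraph V'} (e : G' ≃g G)
    (h : IsPCG G) : IsPCG G' := by
  obtain ⟨t, dmin, dmax, h0, h1, h2⟩ := h
  subst h2
  refine ⟨relab e.toEquiv t, dmin, dmax, h0, h1, ?_⟩
  ext u v
  rw [← e.map_adj_iff]
  change (e u ≠ e v ∧ dmin ≤ t.dist (e u) (e v) ∧ t.dist (e u) (e v) ≤ dmax) ↔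
    (u ≠ v ∧ dmin ≤ t.dist (e u) (e v) ∧ t.dist (e u) (e v) ≤ dmax)
  rw [e.injective.ne_iff]

/-- **ISO** -/
theorem t_iso : S_iso := by
  intro I
  have e := matIso (vs I) adj (ddup_nodup (vs0 I))
  exact ⟨fun h => isPCG_of_iso e.symm h, fun h => isPCG_of_iso e h⟩

end Pool.Agent.H686.PR
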